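import Pool.Agent.Lib.MP_eadfc1_pr.PureBirth

namespace Pool.Agent.Lib.MP_eadfc1_pr.Variants.WindowCounterexample

open MeasureTheory Pool.Agent.Lib.MP_eadfc1_pr

/-- For every `C` there is a finite Markov chain started at `x` whose hitting time of `y` lies in
`[t, t + n]` with probability larger than `C n / t`, for some `t > n`. -/
theorem result (C : ℝ) :
    ∃ (n : ℕ) (P : Matrix (Fin n) (Fin n) ℝ) (x y : Fin n) (t : ℕ)
      (Ω : Type) (_ : MeasurableSpace Ω) (μ : Measure Ω) (X : ℕ → Ω → Fin n),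
      (∀ a b, 0 ≤ P a b) ∧ (∀ a, ∑ b, P a b = 1) ∧
      IsProbabilityMeasure μ ∧ (∀ k, Measurable (X k)) ∧
      (∀ (k : ℕ) (w : ℕ → Fin n), μ.real {ω | ∀ i ≤ k, X i ω = w i}
        = (if w 0 = x then 1 else 0) * ∏ i ∈ Finset.range k, P (w i) (w (i + 1))) ∧
      n < t ∧
      C * n / t < μ.real {ω | (t : WithTop ℕ) ≤ hittingAfter X {y} 0 ω ∧
        hittingAfter X {y} 0 ω ≤ ((t + n : ℕ) : WithTop ℕ)} := by
  obtain ⟨r, hr⟩ := exists_nat_gt (max (32 * C) 4)
  have hr4 : (4 : ℝ) < r := (le_max_right _ _).trans_lt hr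
  have hrC : 32 * C < r := (le_max_left _ _).trans_lt hr
  have hr4' : 4 ≤ r := by exact_mod_cast hr4.le
  let p : unitInterval := ⟨1 / r, by positivity, by
    rw [div_le_one (by linarith)]; linarith⟩
  obtain ⟨s, hs, hmass⟩ := window_mass r hr4' p rfl
  have h2r : 2 * r ≤ r ^ 2 := by nlinarith
  have hsr : (r : ℝ) * ((r : ℝ) ^ 2 - 2 * r) ≤ s := by
    have : ((r * (r ^ 2 - 2 * r) : ℕ) : ℝ) ≤ s := by exact_mod_cast hs
    push_cast [h2r] at this
    exact this
  have hs3 : (r : ℝ) ^ 3 / 2 ≤ s := by nlinarith [sq_nonneg (r : ℝ)]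
  refine ⟨r ^ 2 + 1, P (r ^ 2) p, 0, Fin.last _, s + 1, ℕ → Bool, inferInstance, coins p,
    X (r ^ 2), P_nonneg _ _, P_sum _ _, inferInstance, measurable_X _, fdd _ _, ?_, ?_⟩
  · have : ((r : ℝ)) ^ 2 < s := by nlinarith [sq_nonneg (r : ℝ)]
    have : r ^ 2 < s := by exact_mod_cast this
    omega
  · refine lt_of_lt_of_le ?_ (hmass.trans (measureReal_mono ?_))
    · rw [div_lt_iff₀ (by positivity)]
      push_cast
      have h1 : C * ((r : ℝ) ^ 2 + 1) ≤ r / 32 * ((r : ℝ) ^ 2 + 1) :=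
        mul_le_mul_of_nonneg_right (by linarith) (by positivity)
      nlinarith [sq_nonneg (r : ℝ)]
    · intro ω hω
      exact hit_window _ s _ _ ω hω.1 hω.2 (by omega)

end Pool.Agent.Lib.MP_eadfc1_pr.Variants.WindowCounterexample
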