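import Pool.Agent.Lib.MP_eadfc1_pr.UpMain

namespace Pool.Agent.Lib.MP_eadfc1_pr.Variants.WindowUpper

open MeasureTheory Finset Matrix Pool.Agent.Lib.MP_eadfc1_pr.Up

/-- There is an absolute constant `C` such that for every Markov chain on `n` states started at
`x`, every state `y` and every `t > n`, the hitting time of `y` lies in `[t, t + n]` with
probability at most `C n ^ (3 / 2) / t`. -/
theorem result :
    ∃ C : ℝ, ∀ (n : ℕ) (P : Matrix (Fin n) (Fin n) ℝ) (x y : Fin n) (t : ℕ)
      (Ω : Type) (_ : MeasurableSpace Ω) (μ : Measure Ω) (X : ℕ → Ω → Fin n),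
      (∀ a b, 0 ≤ P a b) → (∀ a, ∑ b, P a b = 1) →
      IsProbabilityMeasure μ → (∀ k, Measurable (X k)) →
      (∀ (k : ℕ) (w : ℕ → Fin n), μ.real {ω | ∀ i ≤ k, X i ω = w i}
        = (if w 0 = x then 1 else 0) * ∏ i ∈ Finset.range k, P (w i) (w (i + 1))) →
      n < t →
      μ.real {ω | (t : WithTop ℕ) ≤ hittingAfter X {y} 0 ω ∧
        hittingAfter X {y} 0 ω ≤ ((t + n : ℕ) : WithTop ℕ)} ≤ C * n * √n / t := by
  refine ⟨112 * (113 * (128 / bt)), ?_⟩
  intro n P x y t Ω _ μ X hP hrow hμ _ hfdd ht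
  have hn1 : 1 ≤ n := Fin.pos x
  have htr : (0 : ℝ) < t := by exact_mod_cast (by omega : 0 < t)
  set W := (range (t + n)).filter fun m => t ≤ m + 1 with hW
  have key := window_bound (Q := zc P y) (zc_nn hP y) (e := fun c => P c y) (fun c => hP c y)
    (fun c => by
      have h2 : ∑ b, zc P y c b + P c y = ∑ b, P c b := by
        rw [← add_sum_erase _ _ (mem_univ y), ← add_sum_erase _ (P c) (mem_univ y)]
        have : ∑ b ∈ univ.erase y, zc P y c b = ∑ b ∈ univ.erase y, P c b :=
          sum_congr rfl fun b hb => by simp [zc, ne_of_mem_erase hb]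
        rw [this]; simp [zc, add_comm]
      rw [h2, hrow]) (Fintype.card_fin n) hn1 x ht W (fun m hm => by
      simp only [hW, mem_filter, mem_range] at hm
      omega)
  rw [le_div_iff₀ htr, mul_comm]
  refine le_trans (mul_le_mul_of_nonneg_left ?_ htr.le) key
  let ext : (m : ℕ) → (Fin (m + 1) → Fin n) → ℕ → Fin n :=
    fun m p i => if h : i < m + 1 then p ⟨i, h⟩ else y
  have hsub : {ω | (t : WithTop ℕ) ≤ hittingAfter X {y} 0 ω ∧
        hittingAfter X {y} 0 ω ≤ ((t + n : ℕ) : WithTop ℕ)}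
      ⊆ ⋃ m ∈ W, ⋃ p ∈ univ.filter (fun p : Fin (m + 1) → Fin n => ∀ i, p i ≠ y),
        {ω | ∀ i ≤ m + 1, X i ω = ext m p i} := by
    rintro ω ⟨h1, h2⟩
    have hne : hittingAfter X {y} 0 ω ≠ ⊤ := ne_top_of_le_ne_top WithTop.coe_ne_top h2
    have hmem := hittingAfter_mem_set_of_ne_top hne
    obtain ⟨k, hk⟩ := WithTop.ne_top_iff_exists.1 hne
    rw [← hk] at h1 h2 hmem
    have h1' : t ≤ k := WithTop.coe_le_coe.1 h1
    have h2' : k ≤ t + n := WithTop.coe_le_coe.1 h2
    obtain ⟨m, rfl⟩ : ∃ m, k = m + 1 := ⟨k - 1, by omega⟩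
    simp only [Set.mem_iUnion]
    refine ⟨m, by simp only [hW, mem_filter, mem_range]; omega, fun i => X i ω, ?_, ?_⟩
    · simp only [mem_filter, mem_univ, true_and]
      intro i
      refine notMem_of_lt_hittingAfter (u := X) (s := {y}) (n := 0) ?_ (Nat.zero_le _)
      rw [← hk]
      exact WithTop.coe_lt_coe.2 i.2
    · intro i hi
      simp only [ext]
      split_ifs with h
      · rfl
      · obtain rfl : i = m + 1 := by omega
        exact hmem
  refine (measureReal_mono hsub (measure_ne_top _ _)).trans ((measureReal_biUnion_finset_le _ _).trans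
    (sum_le_sum fun m _ => (measureReal_biUnion_finset_le _ _).trans ?_))
  rw [← path_sum]
  refine le_trans (sum_le_sum fun p hp => ?_) (sum_le_sum_of_subset_of_nonneg (filter_subset _ _)
    fun p _ _ => by
      split_ifs
      · exact pw_nn (zc_nn hP y) (fun c => hP c y) m p
      · exact le_rfl)
  have hp' : ∀ i, p i ≠ y := (mem_filter.1 hp).2
  rw [hfdd, prod_range_succ, prod_range]
  have e0 : ext m p 0 = p 0 := by simp [ext]
  have e1 : ext m p m = p (Fin.last m) := by simp [ext, Fin.last]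
  have e2 : ext m p (m + 1) = y := by simp [ext]
  have e3 : ∀ i : Fin m, P (ext m p i) (ext m p (i + 1)) = zc P y (p i.castSucc) (p i.succ) := by
    intro i
    have a1 : ext m p i = p i.castSucc := dif_pos (by omega)
    have a2 : ext m p (i + 1) = p i.succ := dif_pos (by omega)
    rw [a1, a2, zc, if_neg (hp' _)]
  rw [e0, e1, e2, prod_congr rfl fun i _ => e3 i, pw]
  split_ifs <;> simp

end Pool.Agent.Lib.MP_eadfc1_pr.Variants.WindowUpper
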